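import Pool.Agent.W360.BQ.Stm

/-! Project BQ, part V-EN: energy decay of Galerkin solutions (adapted from W932.IW.En). -/

set_option autoImplicit false

open MeasureTheory Set Filter Topology

namespace Pool.Agent.W400.BQV.En

open Pool.Agent.W360.BQ
open Pool.Agent.W488.IW hiding Dat sm smI Vf VN VI pr Sol Conv S_ODE S_EN S_COMP S_LIM S_LEQ S_STR
  S_TAIL S_CONC S_NULL

theorem ka_mul_kb (k : Idx) : ka k * kb k = -((m2 k : ℝ) : ℂ) := by
  unfold ka kb m2
  push_cast
  linear_combination ((Real.pi : ℂ) ^ 2 * (k.1 : ℂ) ^ 2 + (Real.pi : ℂ) ^ 2 * (k.2 : ℂ) ^ 2 *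
    (1 - Complex.I ^ 2)) * Complex.I_sq

theorem norm_ka_sq (k : Idx) : ‖ka k‖ ^ 2 = m2 k := by
  rw [← Complex.normSq_eq_norm_sq]
  unfold ka m2
  rw [Complex.normSq_apply]
  simp
  ring

theorem norm_kb_sq (k : Idx) : ‖kb k‖ ^ 2 = m2 k := by
  rw [← Complex.normSq_eq_norm_sq]
  unfold kb m2
  rw [Complex.normSq_apply]
  simp
  ring

theorem m2_nonneg (k : Idx) : 0 ≤ m2 k := by
  unfold m2
  positivity

theorem m2_sq_ge (k : Idx) : Real.pi ^ 2 * m2 k ≤ m2 k ^ 2 := by
  by_cases h : k = 0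
  · subst h
    simp [m2]
  · have h1 : (1 : ℝ) ≤ (k.1 : ℝ) ^ 2 + (k.2 : ℝ) ^ 2 := by
      have : (1 : ℤ) ≤ k.1 ^ 2 + k.2 ^ 2 := by
        by_contra hlt
        push Not at hlt
        have h1 : k.1 ^ 2 = 0 := by nlinarith [sq_nonneg k.1, sq_nonneg k.2]
        have h2 : k.2 ^ 2 = 0 := by nlinarith [sq_nonneg k.1, sq_nonneg k.2]
        apply h
        ext
        · exact pow_eq_zero_iff (by norm_num) |>.mp h1
        · exact pow_eq_zero_iff (by norm_num) |>.mp h2
      exact_mod_cast this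
    have h2 : Real.pi ^ 2 ≤ m2 k := by
      unfold m2
      nlinarith [sq_nonneg Real.pi]
    have := m2_nonneg k
    nlinarith

variable {H : Type} [NormedAddCommGroup H] [InnerProductSpace ℂ H] [CompleteSpace H]

theorem norm_sm_sq (D : Dat H) (Λ : Finset Idx) (w c : Idx → ℂ) :
    ‖sm D Λ w c‖ ^ 2 = ∑ k ∈ Λ, ‖w k * c k‖ ^ 2 := by
  rw [← inner_self_eq_norm_sq (𝕜 := ℂ)]
  unfold sm
  rw [D.e.orthonormal.inner_sum, map_sum]
  apply Finset.sum_congr rfl
  intro k _
  rw [RCLike.conj_mul, ← RCLike.ofReal_pow, RCLike.ofReal_re]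

theorem norm_p (D : Dat H) (N : ℕ) (c : Idx → ℂ) :
    ‖sm D (box N) (fun k => ka k ^ 2) c‖ ^ 2 = di N c := by
  rw [norm_sm_sq]
  unfold di
  apply Finset.sum_congr rfl
  intro k _
  rw [norm_mul, norm_pow, norm_ka_sq]
  ring

theorem norm_r (D : Dat H) (N : ℕ) (c : Idx → ℂ) :
    ‖sm D (box N) (fun k => kb k ^ 2) c‖ ^ 2 = di N c := by
  rw [norm_sm_sq]
  unfold di
  apply Finset.sum_congr rfl
  intro k _
  rw [norm_mul, norm_pow, norm_kb_sq]
  ring

theorem norm_q (D : Dat H) (N : ℕ) (c : Idx → ℂ) :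
    ‖sm D (box N) (fun k => ka k * kb k) c‖ ^ 2 = di N c := by
  rw [norm_sm_sq]
  unfold di
  apply Finset.sum_congr rfl
  intro k _
  rw [norm_mul, ka_mul_kb, norm_neg, Complex.norm_real, Real.norm_eq_abs, mul_pow, sq_abs]

/-- the derivative of the energy -/
noncomputable def dE (D : Dat H) (N : ℕ) (c : Idx → ℂ) : ℝ :=
  ∑ k ∈ box N, m2 k * (2 * inner ℝ (c k) (inner ℂ (D.e k : H) (VN D (box N) c)))

theorem dE_eq (D : Dat H) (N : ℕ) (c : Idx → ℂ) : dE D N c =
    -(2 * (inner ℂ (sm D (box N) (fun k => ka k * kb k) c) (VN D (box N) c) : ℂ).re) := by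
  unfold dE sm
  rw [sum_inner, Complex.re_sum, Finset.mul_sum, ← Finset.sum_neg_distrib]
  apply Finset.sum_congr rfl
  intro k _
  rw [inner_smul_left, Complex.inner]
  simp only [ka_mul_kb]
  simp only [map_mul, map_neg, Complex.conj_ofReal]
  have : (-((m2 k : ℝ) : ℂ) * (starRingEnd ℂ) (c k) * inner ℂ (D.e k : H) (VN D (box N) c)).re =
      -(m2 k * ((starRingEnd ℂ) (c k) * inner ℂ (D.e k : H) (VN D (box N) c)).re) := by
    rw [neg_mul, neg_mul, Complex.neg_re, mul_assoc, Complex.re_ofReal_mul]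
  rw [this]
  ring_nf

theorem dE_le (D : Dat H) (N : ℕ) (c : Idx → ℂ) : dE D N c ≤ -(2 * (D.n - 2) * di N c) := by
  rw [dE_eq]
  have hp := norm_p D N c
  have hq := norm_q D N c
  have hr := norm_r D N c
  unfold VN Vf
  set a := sm D (box N) ka c
  set b := sm D (box N) kb c
  set p := sm D (box N) (fun k => ka k ^ 2) c
  set q := sm D (box N) (fun k => ka k * kb k) c
  set r := sm D (box N) (fun k => kb k ^ 2) c
  have h1 : (inner ℂ q (D.m a b q + D.s a b p + (D.s a b).adjoint r) : ℂ).re =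
      (inner ℂ q (D.m a b q) : ℂ).re + (inner ℂ q (D.s a b p) : ℂ).re
        + (inner ℂ q ((D.s a b).adjoint r) : ℂ).re := by
    rw [inner_add_right, inner_add_right, Complex.add_re, Complex.add_re]
  have h6 : D.n * ‖q‖ ^ 2 ≤ (inner ℂ q (D.m a b q) : ℂ).re := D.c2 a b q
  have h2 : |(inner ℂ q (D.s a b p) : ℂ).re| ≤ ‖q‖ * ‖p‖ := by
    refine (Complex.abs_re_le_norm _).trans ((norm_inner_le_norm _ _).trans ?_)
    apply mul_le_mul_of_nonneg_left _ (norm_nonneg _)
    calc ‖D.s a b p‖ ≤ ‖D.s a b‖ * ‖p‖ := ContinuousLinearMap.le_opNorm _ _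
      _ ≤ 1 * ‖p‖ := mul_le_mul_of_nonneg_right (D.h1 _ _) (norm_nonneg _)
      _ = ‖p‖ := one_mul _
  have h3 : |(inner ℂ q ((D.s a b).adjoint r) : ℂ).re| ≤ ‖q‖ * ‖r‖ := by
    refine (Complex.abs_re_le_norm _).trans ((norm_inner_le_norm _ _).trans ?_)
    apply mul_le_mul_of_nonneg_left _ (norm_nonneg _)
    calc ‖(D.s a b).adjoint r‖ ≤ ‖(D.s a b).adjoint‖ * ‖r‖ := ContinuousLinearMap.le_opNorm _ _
      _ ≤ 1 * ‖r‖ := by
        apply mul_le_mul_of_nonneg_right _ (norm_nonneg _)
        rw [LinearIsometryEquiv.norm_map]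
        exact D.h1 _ _
      _ = ‖r‖ := one_mul _
  have hpq : ‖p‖ = ‖q‖ := by
    have : ‖p‖ ^ 2 = ‖q‖ ^ 2 := by rw [hp, hq]
    exact (sq_eq_sq₀ (norm_nonneg _) (norm_nonneg _)).mp this
  have hrq : ‖r‖ = ‖q‖ := by
    have : ‖r‖ ^ 2 = ‖q‖ ^ 2 := by rw [hr, hq]
    exact (sq_eq_sq₀ (norm_nonneg _) (norm_nonneg _)).mp this
  rw [hpq] at h2
  rw [hrq] at h3
  rw [h1, ← hq]
  have h4 := (abs_le.mp h2).1
  have h5 := (abs_le.mp h3).1
  nlinarith

theorem di_ge (N : ℕ) (c : Idx → ℂ) : Real.pi ^ 2 * en N c ≤ di N c := by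
  unfold en di
  rw [Finset.mul_sum]
  apply Finset.sum_le_sum
  intro k _
  have := mul_le_mul_of_nonneg_right (m2_sq_ge k) (sq_nonneg ‖c k‖)
  linarith

theorem en_nonneg (N : ℕ) (c : Idx → ℂ) : 0 ≤ en N c := by
  unfold en
  exact Finset.sum_nonneg (fun k _ => mul_nonneg (m2_nonneg k) (sq_nonneg _))

theorem main : S_EN := by
  intro H _ _ _ D N T c0 c hT hS
  obtain ⟨hc0, -, hder⟩ := hS
  have hn : 0 < D.n - 2 := by
    have := D.hn
    linarith
  have hE : ∀ t ∈ Icc (0 : ℝ) T, HasDerivWithinAt (fun t => en N (c t)) (dE D N (c t)) (Icc 0 T) t := by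
    intro t ht
    unfold en dE
    apply HasDerivWithinAt.fun_sum
    intro k hk
    exact ((hder k hk t ht).norm_sq).const_mul _
  have hEc : ContinuousOn (fun t => en N (c t)) (Icc 0 T) := fun t ht => (hE t ht).continuousWithinAt
  have hdi : ContinuousOn (fun t => di N (c t)) (Icc 0 T) := by
    unfold di
    apply continuousOn_finsetSum
    intro k hk
    apply ContinuousOn.mul continuousOn_const
    apply ContinuousOn.pow
    exact (fun t ht => ((hder k hk t ht).continuousWithinAt).norm)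
  have hint : interior (Icc (0 : ℝ) T) = Ioo 0 T := interior_Icc
  have hE0 : en N (c 0) = en N c0 := by rw [hc0]
  constructor
  · intro t ht
    have hanti : AntitoneOn (fun t => en N (c t) * Real.exp (2 * (D.n - 2) * Real.pi ^ 2 * t))
        (Icc 0 T) := by
      apply antitoneOn_of_hasDerivWithinAt_nonpos (convex_Icc 0 T)
        (f' := fun t => dE D N (c t) * Real.exp (2 * (D.n - 2) * Real.pi ^ 2 * t) +
          en N (c t) * (Real.exp (2 * (D.n - 2) * Real.pi ^ 2 * t) *
            (2 * (D.n - 2) * Real.pi ^ 2)))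
      · apply hEc.mul
        fun_prop
      · intro t ht
        rw [hint] at ht
        have h1 : HasDerivAt (fun t : ℝ => Real.exp (2 * (D.n - 2) * Real.pi ^ 2 * t))
            (Real.exp (2 * (D.n - 2) * Real.pi ^ 2 * t) * (2 * (D.n - 2) * Real.pi ^ 2)) t := by
          have := ((hasDerivAt_id t).const_mul (2 * (D.n - 2) * Real.pi ^ 2)).exp
          simpa using this
        exact (((hE t (Ioo_subset_Icc_self ht)).mono interior_subset).mul h1.hasDerivWithinAt)
      · intro t _
        have h1 := dE_le D N (c t)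
        have h2 := di_ge N (c t)
        have h3 := Real.exp_pos (2 * (D.n - 2) * Real.pi ^ 2 * t)
        have h4 : dE D N (c t) + en N (c t) * (2 * (D.n - 2) * Real.pi ^ 2) ≤ 0 := by
          nlinarith
        have h5 : dE D N (c t) * Real.exp (2 * (D.n - 2) * Real.pi ^ 2 * t) +
          en N (c t) * (Real.exp (2 * (D.n - 2) * Real.pi ^ 2 * t) *
            (2 * (D.n - 2) * Real.pi ^ 2)) =
          (dE D N (c t) + en N (c t) * (2 * (D.n - 2) * Real.pi ^ 2)) *
            Real.exp (2 * (D.n - 2) * Real.pi ^ 2 * t) := by ring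
        rw [h5]
        exact mul_nonpos_of_nonpos_of_nonneg h4 h3.le
    have h1 := hanti (left_mem_Icc.mpr hT.le) ht ht.1
    simp only [mul_zero, Real.exp_zero, mul_one] at h1
    rw [hE0] at h1
    have h2 := Real.exp_pos (-(2 * (D.n - 2) * Real.pi ^ 2 * t))
    have h3 := mul_le_mul_of_nonneg_right h1 h2.le
    rw [mul_assoc, ← Real.exp_add, add_neg_cancel, Real.exp_zero, mul_one] at h3
    exact h3
  · have hanti : AntitoneOn (fun t => en N (c t) + 2 * (D.n - 2) * ∫ s in (0 : ℝ)..t, di N (c s))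
        (Icc 0 T) := by
      have hi : IntervalIntegrable (fun t => di N (c t)) volume 0 T :=
        ContinuousOn.intervalIntegrable (by rwa [uIcc_of_le hT.le])
      apply antitoneOn_of_hasDerivWithinAt_nonpos (convex_Icc 0 T)
        (f' := fun t => dE D N (c t) + 2 * (D.n - 2) * di N (c t))
      · apply hEc.add
        apply ContinuousOn.mul continuousOn_const
        have := intervalIntegral.continuousOn_primitive_interval (μ := volume)
          (f := fun t => di N (c t)) (a := 0) (b := T) (by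
            rw [uIcc_of_le hT.le]
            exact hdi.integrableOn_Icc)
        rwa [uIcc_of_le hT.le] at this
      · intro t ht
        rw [hint] at ht
        have hmem : Icc (0 : ℝ) T ∈ 𝓝 t := Icc_mem_nhds ht.1 ht.2
        have hcat : ContinuousAt (fun t => di N (c t)) t :=
          (hdi t (Ioo_subset_Icc_self ht)).continuousAt hmem
        have h1 : HasDerivAt (fun t => ∫ s in (0 : ℝ)..t, di N (c s)) (di N (c t)) t := by
          apply intervalIntegral.integral_hasDerivAt_right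
          · apply hi.mono_set
            rw [uIcc_of_le ht.1.le, uIcc_of_le hT.le]
            exact Icc_subset_Icc_right ht.2.le
          · exact ContinuousOn.stronglyMeasurableAtFilter_nhdsWithin hdi measurableSet_Icc t |>.filter_mono
              (by rw [nhdsWithin_eq_nhds.mpr hmem])
          · exact hcat
        exact ((hE t (Ioo_subset_Icc_self ht)).mono interior_subset).add
          ((h1.const_mul _).hasDerivWithinAt)
      · intro t _
        have h1 := dE_le D N (c t)
        linarith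
    have h1 := hanti (left_mem_Icc.mpr hT.le) (right_mem_Icc.mpr hT.le) hT.le
    simp only [intervalIntegral.integral_same, mul_zero, add_zero] at h1
    rw [hE0] at h1
    have h2 := en_nonneg N (c T)
    rw [le_div_iff₀ (by positivity)]
    linarith

end Pool.Agent.W400.BQV.En
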