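import Pool.Agent.W360.BQ.Stm

/-! Project BQ, part V-LIM: limits of the Fourier sums (adapted from W508.IW.Lim). -/

set_option autoImplicit false
set_option linter.unusedSectionVars false

namespace Pool.Agent.W400.BQV.Lim

open MeasureTheory Set Filter Topology
open Pool.Agent.W360.BQ
open Pool.Agent.W488.IW hiding Dat sm smI Vf VN VI pr Sol Conv S_ODE S_EN S_COMP S_LIM S_LEQ S_STR
  S_TAIL S_CONC S_NULL

lemma mem_box {N : ℕ} {k : Idx} : k ∈ box N ↔ |k.1| ≤ N ∧ |k.2| ≤ N := by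
  simp only [box, Finset.mem_product, Finset.mem_Icc, abs_le]

lemma box_mono : Monotone box := by
  intro a b hab k hk
  rw [mem_box] at hk ⊢
  have : (a : ℤ) ≤ b := by exact_mod_cast hab
  exact ⟨hk.1.trans this, hk.2.trans this⟩

lemma exists_box (k : Idx) : ∃ N, k ∈ box N := by
  refine ⟨max k.1.natAbs k.2.natAbs, ?_⟩
  rw [mem_box]
  constructor
  · have : (k.1.natAbs : ℤ) ≤ ((max k.1.natAbs k.2.natAbs : ℕ) : ℤ) := by
      exact_mod_cast le_max_left _ _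
    rwa [Int.natCast_natAbs] at this
  · have : (k.2.natAbs : ℤ) ≤ ((max k.1.natAbs k.2.natAbs : ℕ) : ℤ) := by
      exact_mod_cast le_max_right _ _
    rwa [Int.natCast_natAbs] at this

lemma box_tendsto : Tendsto box atTop atTop :=
  tendsto_atTop_finset_of_monotone box_mono exists_box

lemma m2_nonneg (k : Idx) : 0 ≤ m2 k := by unfold m2; positivity

lemma norm_ka_sq (k : Idx) : ‖ka k‖ ^ 2 = m2 k := by
  rw [← Complex.normSq_eq_norm_sq]
  simp only [ka, m2, Complex.normSq_apply]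
  simp
  ring

lemma norm_kb_sq (k : Idx) : ‖kb k‖ ^ 2 = m2 k := by
  rw [← Complex.normSq_eq_norm_sq]
  simp only [kb, m2, Complex.normSq_apply]
  simp
  ring

lemma pi_sq_ge : (1 : ℝ) ≤ Real.pi ^ 2 := by
  have := Real.pi_gt_three
  nlinarith

lemma m2_lower {K : ℕ} {k : Idx} (hk : k ∉ box K) : ((K : ℝ) + 1) ^ 2 ≤ m2 k := by
  rw [mem_box, not_and_or, not_le, not_le] at hk
  have hp := pi_sq_ge
  have key : ((K : ℝ) + 1) ^ 2 ≤ (k.1 : ℝ) ^ 2 + (k.2 : ℝ) ^ 2 := by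
    rcases hk with h | h
    · have h1 : (K : ℤ) + 1 ≤ |k.1| := by omega
      have h2 : ((K : ℝ) + 1) ≤ |(k.1 : ℝ)| := by exact_mod_cast h1
      have h3 : ((K : ℝ) + 1) ^ 2 ≤ |(k.1 : ℝ)| ^ 2 := by
        apply pow_le_pow_left₀ (by positivity) h2
      rw [sq_abs] at h3
      nlinarith [sq_nonneg (k.2 : ℝ)]
    · have h1 : (K : ℤ) + 1 ≤ |k.2| := by omega
      have h2 : ((K : ℝ) + 1) ≤ |(k.2 : ℝ)| := by exact_mod_cast h1
      have h3 : ((K : ℝ) + 1) ^ 2 ≤ |(k.2 : ℝ)| ^ 2 := by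
        apply pow_le_pow_left₀ (by positivity) h2
      rw [sq_abs] at h3
      nlinarith [sq_nonneg (k.1 : ℝ)]
  unfold m2
  nlinarith [sq_nonneg (k.1 : ℝ), sq_nonneg (k.2 : ℝ)]

lemma m2_le_sq (k : Idx) : m2 k ≤ m2 k ^ 2 := by
  by_cases hk : k ∈ box 0
  · rw [mem_box] at hk
    have h1 : k.1 = 0 := by simpa using hk.1
    have h2 : k.2 = 0 := by simpa using hk.2
    have : m2 k = 0 := by simp [m2, h1, h2]
    rw [this]; simp
  · have := m2_lower hk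
    simp at this
    nlinarith

lemma tail_bound {K : ℕ} {k : Idx} (hk : k ∉ box K) : m2 k ≤ 1 / ((K : ℝ) + 1) ^ 2 * m2 k ^ 2 := by
  have h1 := m2_lower hk
  have h2 : (0 : ℝ) < ((K : ℝ) + 1) ^ 2 := by positivity
  rw [div_mul_eq_mul_div, le_div_iff₀ h2]
  nlinarith [m2_nonneg k]

section hb

variable {H : Type} [NormedAddCommGroup H] [InnerProductSpace ℂ H] [CompleteSpace H]

lemma hasSum_of_sq (e : HilbertBasis Idx ℂ H) (a : Idx → ℂ) (ha : Summable fun k => ‖a k‖ ^ 2) :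
    ∃ v : H, HasSum (fun k => a k • e k) v ∧ ‖v‖ ^ 2 = ∑' k, ‖a k‖ ^ 2 := by
  have hm : Memℓp a 2 := by
    apply memℓp_gen
    simpa using ha
  let f : lp (fun _ : Idx => ℂ) 2 := ⟨a, hm⟩
  refine ⟨e.repr.symm f, ?_, ?_⟩
  · exact e.hasSum_repr_symm f
  · rw [LinearIsometryEquiv.norm_map]
    have := lp.norm_rpow_eq_tsum (p := 2) (by norm_num) f
    simpa [f] using this

lemma hasSum_smI (D : Dat H) (w c : Idx → ℂ) (h : Summable fun k => ‖w k * c k‖ ^ 2) :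
    HasSum (fun k => (w k * c k) • D.e k) (smI D w c) := by
  obtain ⟨v, hv, _⟩ := hasSum_of_sq D.e (fun k => w k * c k) h
  have : smI D w c = v := hv.tsum_eq
  rw [this]; exact hv

lemma norm_smI (D : Dat H) (w c : Idx → ℂ) (h : Summable fun k => ‖w k * c k‖ ^ 2) :
    ‖smI D w c‖ ^ 2 = ∑' k, ‖w k * c k‖ ^ 2 := by
  obtain ⟨v, hv, hn⟩ := hasSum_of_sq D.e (fun k => w k * c k) h
  have : smI D w c = v := hv.tsum_eq
  rw [this]; exact hn

lemma sm_eq_smI (D : Dat H) (Λ : Finset Idx) (w c : Idx → ℂ) (h : ∀ k, k ∉ Λ → c k = 0) :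
    sm D Λ w c = smI D w c := by
  unfold sm smI
  rw [tsum_eq_sum]
  intro k hk
  simp [h k hk]

lemma smI_sub (D : Dat H) (w c d : Idx → ℂ) (h : Summable fun k => ‖w k * c k‖ ^ 2)
    (h' : Summable fun k => ‖w k * d k‖ ^ 2) :
    smI D w c - smI D w d = smI D w (fun k => c k - d k) := by
  have h1 := (hasSum_smI D w c h).sub (hasSum_smI D w d h')
  unfold smI at *
  rw [← h1.tsum_eq]
  congr 1
  funext k
  rw [mul_sub, sub_smul]


lemma cont_cs {D : Dat H} {N : ℕ} {T : ℝ} {c0 : Idx → ℂ} {c : ℝ → Idx → ℂ}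
    (hS : Sol D N T c0 c) (k : Idx) : ContinuousOn (fun t => c t k) (Icc 0 T) := by
  by_cases hk : k ∈ box N
  · intro t ht
    exact (hS.2.2 k hk t ht).continuousWithinAt
  · have : (fun t => c t k) = fun _ => 0 := by
      funext t; exact hS.2.1 t k hk
    rw [this]; exact continuousOn_const

lemma cont_di {D : Dat H} {N : ℕ} {T : ℝ} {c0 : Idx → ℂ} {c : ℝ → Idx → ℂ}
    (hS : Sol D N T c0 c) : ContinuousOn (fun t => di N (c t)) (Icc 0 T) := by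
  unfold di
  apply continuousOn_finset_sum
  intro k _
  exact continuousOn_const.mul ((cont_cs hS k).norm.pow 2)

lemma di_nonneg (N : ℕ) (c : Idx → ℂ) : 0 ≤ di N c := by
  unfold di
  exact Finset.sum_nonneg fun k _ => by positivity

lemma en_nonneg (N : ℕ) (c : Idx → ℂ) : 0 ≤ en N c := by
  unfold en
  exact Finset.sum_nonneg fun k _ => mul_nonneg (m2_nonneg k) (by positivity)

lemma en_const {D : Dat H} {T : ℝ} {c0 : Idx → ℂ} {Nn : ℕ → ℕ} {cs : ℕ → ℝ → Idx → ℂ}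
    (hN : StrictMono Nn) (hS : ∀ j, Sol D (Nn j) T c0 (cs j)) (j : ℕ) :
    en (Nn j) c0 = en (Nn 0) c0 := by
  have h0 : ∀ k, k ∉ box (Nn 0) → c0 k = 0 := by
    intro k hk
    have := (hS 0).2.1 0 k hk
    rwa [(hS 0).1] at this
  unfold en
  symm
  apply Finset.sum_subset (box_mono (hN.monotone (Nat.zero_le j)))
  intro k _ hk
  simp [h0 k hk]

/-- the constant -/
noncomputable def CC (D : Dat H) (N : ℕ) (c0 : Idx → ℂ) : ℝ := en N c0 / (2 * (D.n - 2))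

lemma CC_nonneg (D : Dat H) (N : ℕ) (c0 : Idx → ℂ) : 0 ≤ CC D N c0 := by
  unfold CC
  apply div_nonneg (en_nonneg _ _)
  have := D.hn
  linarith

lemma int_di (hEN : S_EN) {D : Dat H} {T : ℝ} {c0 : Idx → ℂ} {Nn : ℕ → ℕ}
    {cs : ℕ → ℝ → Idx → ℂ} (hT : 0 < T) (hN : StrictMono Nn)
    (hS : ∀ j, Sol D (Nn j) T c0 (cs j)) (j : ℕ) :
    ∫ t in Icc 0 T, di (Nn j) (cs j t) ≤ CC D (Nn 0) c0 := by
  have := (hEN H D (Nn j) T c0 (cs j) hT (hS j)).2
  rw [intervalIntegral.integral_of_le hT.le, ← integral_Icc_eq_integral_Ioc, en_const hN hS] at this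
  exact this

lemma integrable_di {D : Dat H} {N : ℕ} {T : ℝ} {c0 : Idx → ℂ} {c : ℝ → Idx → ℂ}
    (hS : Sol D N T c0 c) : IntegrableOn (fun t => di N (c t)) (Icc 0 T) :=
  (cont_di hS).integrableOn_compact isCompact_Icc

/-- the extended sum -/
noncomputable def EX (cl : ℝ → Idx → ℂ) (t : ℝ) : ENNReal :=
  ∑' k, ENNReal.ofReal (m2 k ^ 2 * ‖cl t k‖ ^ 2)

lemma EX_toReal (cl : ℝ → Idx → ℂ) (t : ℝ) :
    (EX cl t).toReal = ∑' k, m2 k ^ 2 * ‖cl t k‖ ^ 2 := by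
  unfold EX
  rw [ENNReal.tsum_toReal_eq (fun a => ENNReal.ofReal_ne_top)]
  congr 1
  funext k
  rw [ENNReal.toReal_ofReal (by positivity)]

lemma EX_summable {cl : ℝ → Idx → ℂ} {t : ℝ} (h : EX cl t ≠ ⊤) :
    Summable fun k => m2 k ^ 2 * ‖cl t k‖ ^ 2 := by
  have := ENNReal.summable_toReal h
  refine this.congr ?_
  intro k
  rw [ENNReal.toReal_ofReal (by positivity)]

lemma EX_le {D : Dat H} {T : ℝ} {c0 : Idx → ℂ} {Nn : ℕ → ℕ}
    {cs : ℕ → ℝ → Idx → ℂ} {cl : ℝ → Idx → ℂ} (hc : Conv D T c0 Nn cs cl) {t : ℝ}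
    (ht : t ∈ Icc 0 T) :
    EX cl t ≤ liminf (fun j => ENNReal.ofReal (di (Nn j) (cs j t))) atTop := by
  obtain ⟨hT, hN, hS, _, hU⟩ := hc
  unfold EX
  rw [ENNReal.tsum_eq_iSup_sum]
  apply iSup_le
  intro s
  have h1 : ∀ k, Tendsto (fun j => cs j t k) atTop (𝓝 (cl t k)) := fun k =>
    (hU k).tendsto_at ht
  have h2 : Tendsto (fun j => ∑ k ∈ s, ENNReal.ofReal (m2 k ^ 2 * ‖cs j t k‖ ^ 2)) atTop
      (𝓝 (∑ k ∈ s, ENNReal.ofReal (m2 k ^ 2 * ‖cl t k‖ ^ 2))) := by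
    apply tendsto_finset_sum
    intro k _
    apply ENNReal.tendsto_ofReal
    exact ((h1 k).norm.pow 2).const_mul _
  rw [← h2.liminf_eq]
  refine liminf_le_liminf ?_
  have h3 : Tendsto (fun j => box (Nn j)) atTop atTop := box_tendsto.comp hN.tendsto_atTop
  filter_upwards [h3.eventually_ge_atTop s] with j hj
  rw [← ENNReal.ofReal_sum_of_nonneg (fun k _ => by positivity)]
  apply ENNReal.ofReal_le_ofReal
  unfold di
  exact Finset.sum_le_sum_of_subset_of_nonneg hj (fun k _ _ => by positivity)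

lemma EX_aemeas {D : Dat H} {T : ℝ} {c0 : Idx → ℂ} {Nn : ℕ → ℕ}
    {cs : ℕ → ℝ → Idx → ℂ} {cl : ℝ → Idx → ℂ} (hc : Conv D T c0 Nn cs cl) :
    AEMeasurable (EX cl) (volume.restrict (Icc 0 T)) := by
  obtain ⟨hT, hN, hS, hC, hU⟩ := hc
  unfold EX
  apply AEMeasurable.ennreal_tsum
  intro k
  apply AEMeasurable.ennreal_ofReal
  exact ((continuousOn_const.mul ((hC k).norm.pow 2)).aemeasurable measurableSet_Icc)

lemma lint_EX (hEN : S_EN) {D : Dat H} {T : ℝ} {c0 : Idx → ℂ} {Nn : ℕ → ℕ}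
    {cs : ℕ → ℝ → Idx → ℂ} {cl : ℝ → Idx → ℂ} (hc : Conv D T c0 Nn cs cl) :
    ∫⁻ t in Icc 0 T, EX cl t ≤ ENNReal.ofReal (CC D (Nn 0) c0) := by
  have hc' := hc
  obtain ⟨hT, hN, hS, hC, hU⟩ := hc
  calc ∫⁻ t in Icc 0 T, EX cl t
      ≤ ∫⁻ t in Icc 0 T, liminf (fun j => ENNReal.ofReal (di (Nn j) (cs j t))) atTop := by
        apply lintegral_mono_ae
        filter_upwards [ae_restrict_mem measurableSet_Icc] with t ht
        exact EX_le hc' ht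
    _ ≤ liminf (fun j => ∫⁻ t in Icc 0 T, ENNReal.ofReal (di (Nn j) (cs j t))) atTop := by
        apply lintegral_liminf_le'
        intro j
        exact ((cont_di (hS j)).aemeasurable measurableSet_Icc).ennreal_ofReal
    _ ≤ liminf (fun _ : ℕ => ENNReal.ofReal (CC D (Nn 0) c0)) atTop := by
        refine liminf_le_liminf (Eventually.of_forall ?_)
        intro j
        rw [← ofReal_integral_eq_lintegral_ofReal (integrable_di (hS j))
          (Eventually.of_forall fun t => di_nonneg _ _)]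
        exact ENNReal.ofReal_le_ofReal (int_di hEN hT hN hS j)
    _ = ENNReal.ofReal (CC D (Nn 0) c0) := liminf_const _

lemma EX_ae (hEN : S_EN) {D : Dat H} {T : ℝ} {c0 : Idx → ℂ} {Nn : ℕ → ℕ}
    {cs : ℕ → ℝ → Idx → ℂ} {cl : ℝ → Idx → ℂ} (hc : Conv D T c0 Nn cs cl) :
    ∀ᵐ t ∂(volume.restrict (Icc 0 T)), EX cl t < ⊤ :=
  ae_lt_top' (EX_aemeas hc) ((lint_EX hEN hc).trans_lt ENNReal.ofReal_lt_top).ne

lemma integrable_E (hEN : S_EN) {D : Dat H} {T : ℝ} {c0 : Idx → ℂ} {Nn : ℕ → ℕ}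
    {cs : ℕ → ℝ → Idx → ℂ} {cl : ℝ → Idx → ℂ} (hc : Conv D T c0 Nn cs cl) :
    IntegrableOn (fun t => ∑' k, m2 k ^ 2 * ‖cl t k‖ ^ 2) (Icc 0 T) := by
  have := integrable_toReal_of_lintegral_ne_top (EX_aemeas hc)
    ((lint_EX hEN hc).trans_lt ENNReal.ofReal_lt_top).ne
  simpa only [EX_toReal, IntegrableOn] using this

lemma int_E (hEN : S_EN) {D : Dat H} {T : ℝ} {c0 : Idx → ℂ} {Nn : ℕ → ℕ}
    {cs : ℕ → ℝ → Idx → ℂ} {cl : ℝ → Idx → ℂ} (hc : Conv D T c0 Nn cs cl) :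
    ∫ t in Icc 0 T, ∑' k, m2 k ^ 2 * ‖cl t k‖ ^ 2 ≤ CC D (Nn 0) c0 := by
  have := integral_toReal (EX_aemeas hc) (EX_ae hEN hc)
  simp only [EX_toReal] at this
  rw [this]
  exact ENNReal.toReal_le_of_le_ofReal (CC_nonneg _ _ _) (lint_EX hEN hc)

lemma summable_w {cl : Idx → ℂ} (w : Idx → ℂ) (hw : ∀ k, ‖w k‖ ≤ m2 k)
    (h : Summable fun k => m2 k ^ 2 * ‖cl k‖ ^ 2) : Summable fun k => ‖w k * cl k‖ ^ 2 := by
  refine Summable.of_nonneg_of_le (fun k => by positivity) (fun k => ?_) h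
  rw [norm_mul, mul_pow]
  exact mul_le_mul_of_nonneg_right (pow_le_pow_left₀ (norm_nonneg _) (hw k) 2) (by positivity)

lemma aesm (hEN : S_EN) {D : Dat H} {T : ℝ} {c0 : Idx → ℂ} {Nn : ℕ → ℕ}
    {cs : ℕ → ℝ → Idx → ℂ} {cl : ℝ → Idx → ℂ} (hc : Conv D T c0 Nn cs cl)
    (w : Idx → ℂ) (hw : ∀ k, ‖w k‖ ≤ m2 k) :
    AEStronglyMeasurable (fun t => smI D w (cl t)) (volume.restrict (Icc 0 T)) := by
  have hcont := hc.2.2.2.1
  apply aestronglyMeasurable_of_tendsto_ae (u := atTop)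
    (f := fun (K : ℕ) t => ∑ k ∈ box K, (w k * cl t k) • D.e k)
  · intro K
    apply ContinuousOn.aestronglyMeasurable _ measurableSet_Icc
    apply continuousOn_finset_sum
    intro k _
    exact (continuousOn_const.mul (hcont k)).smul continuousOn_const
  · filter_upwards [EX_ae hEN hc] with t ht
    have h1 := summable_w w hw (EX_summable ht.ne)
    have h2 := hasSum_smI D w (cl t) h1
    exact h2.comp box_tendsto

lemma norm_le_of_sq {w : Idx → ℂ} (hw : ∀ k, ‖w k‖ ^ 2 = m2 k) (k : Idx) : ‖w k‖ ≤ m2 k := by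
  have h1 := m2_le_sq k
  rw [← hw k] at h1
  have h2 : ‖w k‖ ^ 2 ≤ (m2 k) ^ 2 := by
    rw [← hw k]; exact h1
  exact (pow_le_pow_iff_left₀ (norm_nonneg _) (m2_nonneg k) two_ne_zero).1 h2

lemma pointwise {D : Dat H} {N : ℕ} {c d : Idx → ℂ} (w : Idx → ℂ)
    (hw : ∀ k, ‖w k‖ ^ 2 = m2 k) (hc : ∀ k, k ∉ box N → c k = 0)
    (hd : Summable fun k => m2 k ^ 2 * ‖d k‖ ^ 2) (K : ℕ) :
    ‖sm D (box N) w c - smI D w d‖ ^ 2 ≤ (∑ k ∈ box K, m2 k * ‖c k - d k‖ ^ 2)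
      + 2 / ((K : ℝ) + 1) ^ 2 * (di N c + ∑' k, m2 k ^ 2 * ‖d k‖ ^ 2) := by
  have hcs : Summable fun k => ‖w k * c k‖ ^ 2 := by
    apply summable_of_ne_finset_zero (s := box N)
    intro k hk
    simp [hc k hk]
  have hds := summable_w w (norm_le_of_sq hw) hd
  rw [sm_eq_smI D (box N) w c hc, smI_sub D w c d hcs hds]
  have hms : ∀ k, ‖w k * (c k - d k)‖ ^ 2 = m2 k * ‖c k - d k‖ ^ 2 := by
    intro k
    rw [norm_mul, mul_pow, hw k]
  have hA : HasSum (fun k => if k ∈ box K then m2 k * ‖c k - d k‖ ^ 2 else 0)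
      (∑ k ∈ box K, m2 k * ‖c k - d k‖ ^ 2) := by
    have : HasSum (fun k => if k ∈ box K then m2 k * ‖c k - d k‖ ^ 2 else 0)
        (∑ k ∈ box K, if k ∈ box K then m2 k * ‖c k - d k‖ ^ 2 else 0) :=
      hasSum_sum_of_ne_finset_zero (fun k hk => by simp [hk])
    convert this using 1
    apply Finset.sum_congr rfl
    intro k hk
    simp [hk]
  have hB : HasSum (fun k => m2 k ^ 2 * ‖c k‖ ^ 2) (di N c) := by
    unfold di
    apply hasSum_sum_of_ne_finset_zero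
    intro k hk
    simp [hc k hk]
  have hD := hd.hasSum
  have hR := hA.add ((hB.add hD).mul_left (2 / ((K : ℝ) + 1) ^ 2))
  have hle : ∀ k, ‖w k * (c k - d k)‖ ^ 2 ≤ (if k ∈ box K then m2 k * ‖c k - d k‖ ^ 2 else 0)
      + 2 / ((K : ℝ) + 1) ^ 2 * (m2 k ^ 2 * ‖c k‖ ^ 2 + m2 k ^ 2 * ‖d k‖ ^ 2) := by
    intro k
    rw [hms k]
    by_cases hk : k ∈ box K
    · rw [if_pos hk]
      have : 0 ≤ 2 / ((K : ℝ) + 1) ^ 2 * (m2 k ^ 2 * ‖c k‖ ^ 2 + m2 k ^ 2 * ‖d k‖ ^ 2) := by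
        positivity
      linarith
    · rw [if_neg hk, zero_add]
      have h1 := tail_bound hk
      have h2 : ‖c k - d k‖ ^ 2 ≤ 2 * ‖c k‖ ^ 2 + 2 * ‖d k‖ ^ 2 := by
        have := norm_sub_le (c k) (d k)
        nlinarith [norm_nonneg (c k - d k), sq_nonneg (‖c k‖ - ‖d k‖), norm_nonneg (c k),
          norm_nonneg (d k)]
      calc m2 k * ‖c k - d k‖ ^ 2
          ≤ (1 / ((K : ℝ) + 1) ^ 2 * m2 k ^ 2) * (2 * ‖c k‖ ^ 2 + 2 * ‖d k‖ ^ 2) :=
            mul_le_mul h1 h2 (by positivity) (by positivity)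
        _ = _ := by ring
  have hsum : Summable fun k => ‖w k * (c k - d k)‖ ^ 2 :=
    Summable.of_nonneg_of_le (fun k => by positivity) hle hR.summable
  rw [norm_smI D w _ hsum]
  exact hasSum_le hle hsum.hasSum hR

lemma conv_w (hEN : S_EN) {D : Dat H} {T : ℝ} {c0 : Idx → ℂ} {Nn : ℕ → ℕ}
    {cs : ℕ → ℝ → Idx → ℂ} {cl : ℝ → Idx → ℂ} (hc : Conv D T c0 Nn cs cl)
    (w : Idx → ℂ) (hw : ∀ k, ‖w k‖ ^ 2 = m2 k) :
    Tendsto (fun j => ∫ t in Icc 0 T, ‖sm D (box (Nn j)) w (cs j t) - smI D w (cl t)‖ ^ 2)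
      atTop (𝓝 0) := by
  have hc' := hc
  obtain ⟨hT, hN, hS, hC, hU⟩ := hc
  have hC0 := CC_nonneg D (Nn 0) c0
  rw [Metric.tendsto_atTop']
  intro ε hε
  obtain ⟨K, hK⟩ : ∃ K : ℕ, 4 * CC D (Nn 0) c0 / ((K : ℝ) + 1) ^ 2 < ε / 2 := by
    obtain ⟨K, hK⟩ := exists_nat_gt (4 * CC D (Nn 0) c0 / (ε / 2))
    refine ⟨K, ?_⟩
    rw [div_lt_iff₀ (by positivity)] at hK ⊢
    have : (K : ℝ) ≤ ((K : ℝ) + 1) ^ 2 := by nlinarith [(Nat.cast_nonneg K : (0 : ℝ) ≤ K)]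
    nlinarith
  set S : ℝ := ∑ k ∈ box K, m2 k with hSdef
  have hS0 : 0 ≤ S := Finset.sum_nonneg fun k _ => m2_nonneg k
  set δ : ℝ := Real.sqrt (ε / (2 * (T * S + 1))) with hδ
  have hpos : 0 < ε / (2 * (T * S + 1)) := by positivity
  have hδ0 : 0 < δ := Real.sqrt_pos.2 hpos
  have hδ2 : δ ^ 2 = ε / (2 * (T * S + 1)) := Real.sq_sqrt hpos.le
  have hev : ∀ᶠ j in atTop, ∀ k ∈ box K, ∀ t ∈ Icc (0 : ℝ) T, ‖cs j t k - cl t k‖ < δ := by
    rw [Filter.eventually_all_finset]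
    intro k _
    have := Metric.tendstoUniformlyOn_iff.1 (hU k) δ hδ0
    filter_upwards [this] with j hj t ht
    rw [← dist_eq_norm, dist_comm]
    exact hj t ht
  obtain ⟨J, hJ⟩ := Filter.eventually_atTop.1 hev
  refine ⟨J, fun j hj => ?_⟩
  have hj' := hJ j hj.le
  have hnn : 0 ≤ ∫ t in Icc 0 T, ‖sm D (box (Nn j)) w (cs j t) - smI D w (cl t)‖ ^ 2 :=
    integral_nonneg fun t => by positivity
  rw [Real.dist_eq, sub_zero, abs_of_nonneg hnn]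
  have hiE := integrable_E hEN hc'
  have hiD := integrable_di (hS j)
  have hi : IntegrableOn (fun t => S * δ ^ 2 + 2 / ((K : ℝ) + 1) ^ 2 *
      (di (Nn j) (cs j t) + ∑' k, m2 k ^ 2 * ‖cl t k‖ ^ 2)) (Icc 0 T) := by
    apply Integrable.add
    · exact integrableOn_const (by simp)
    · exact (hiD.add hiE).const_mul _
  have hle : ∫ t in Icc 0 T, ‖sm D (box (Nn j)) w (cs j t) - smI D w (cl t)‖ ^ 2
      ≤ ∫ t in Icc 0 T, (S * δ ^ 2 + 2 / ((K : ℝ) + 1) ^ 2 *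
      (di (Nn j) (cs j t) + ∑' k, m2 k ^ 2 * ‖cl t k‖ ^ 2)) := by
    apply integral_mono_of_nonneg (Eventually.of_forall fun t => by positivity) hi
    filter_upwards [EX_ae hEN hc', ae_restrict_mem measurableSet_Icc] with t ht ht'
    have h1 := pointwise (D := D) w hw ((hS j).2.1 t) (EX_summable ht.ne) K
    refine h1.trans ?_
    gcongr
    rw [hSdef, Finset.sum_mul]
    apply Finset.sum_le_sum
    intro k hk
    have h2 := hj' k hk t ht'
    exact mul_le_mul_of_nonneg_left (pow_le_pow_left₀ (norm_nonneg _) h2.le 2) (m2_nonneg k)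
  have heq : ∫ t in Icc 0 T, (S * δ ^ 2 + 2 / ((K : ℝ) + 1) ^ 2 *
      (di (Nn j) (cs j t) + ∑' k, m2 k ^ 2 * ‖cl t k‖ ^ 2))
      = T * (S * δ ^ 2) + 2 / ((K : ℝ) + 1) ^ 2 * ((∫ t in Icc 0 T, di (Nn j) (cs j t))
        + ∫ t in Icc 0 T, ∑' k, m2 k ^ 2 * ‖cl t k‖ ^ 2) := by
    have hcst : Integrable (fun _ : ℝ => S * δ ^ 2) (volume.restrict (Icc 0 T)) :=
      integrableOn_const (by simp)
    have hsec : Integrable (fun t => 2 / ((K : ℝ) + 1) ^ 2 *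
      (di (Nn j) (cs j t) + ∑' k, m2 k ^ 2 * ‖cl t k‖ ^ 2)) (volume.restrict (Icc 0 T)) :=
      (hiD.add hiE).const_mul _
    have hadd : ∫ t in Icc 0 T, (di (Nn j) (cs j t) + ∑' k, m2 k ^ 2 * ‖cl t k‖ ^ 2)
        = (∫ t in Icc 0 T, di (Nn j) (cs j t))
        + ∫ t in Icc 0 T, ∑' k, m2 k ^ 2 * ‖cl t k‖ ^ 2 := integral_add hiD hiE
    rw [integral_add hcst hsec]
    congr 1
    · simp [hT.le]
    · rw [integral_const_mul, hadd]
  have h1 := int_di hEN hT hN hS j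
  have h2 := int_E hEN hc'
  have h3 : T * (S * δ ^ 2) ≤ ε / 2 := by
    rw [hδ2]
    have : 0 < T * S + 1 := by positivity
    rw [show T * (S * (ε / (2 * (T * S + 1)))) = (T * S * ε / 2) / (T * S + 1) by
      field_simp, div_le_iff₀ this]
    nlinarith
  have h4 : 2 / ((K : ℝ) + 1) ^ 2 * ((∫ t in Icc 0 T, di (Nn j) (cs j t))
        + ∫ t in Icc 0 T, ∑' k, m2 k ^ 2 * ‖cl t k‖ ^ 2)
        ≤ 4 * CC D (Nn 0) c0 / ((K : ℝ) + 1) ^ 2 := by
    calc _ ≤ 2 / ((K : ℝ) + 1) ^ 2 * (CC D (Nn 0) c0 + CC D (Nn 0) c0) := by gcongr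
      _ = _ := by ring
  linarith [hle, heq ▸ hle]

end hb

theorem main (hEN : S_EN) : S_LIM := by
  intro H _ _ _ D T c0 Nn cs cl hc
  refine ⟨?_, integrable_E hEN hc, fun w hw => aesm hEN hc w hw, conv_w hEN hc ka norm_ka_sq,
    conv_w hEN hc kb norm_kb_sq⟩
  filter_upwards [EX_ae hEN hc] with t ht
  exact EX_summable ht.ne

end Pool.Agent.W400.BQV.Lim
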