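import Pool.Agent.W116.IW.Ibp
import Pool.Agent.W360.BQ.Stm

/-! Project BQ: exact forms integrate to zero at every `F0` (part V-NULLF, adapted from W116.IW.Null). -/

set_option autoImplicit false

namespace Pool.Agent.W400.BQV.Nullf

open Pool.Agent.W360.BQ
open Pool.Agent.W488.IW hiding Dat sm smI Vf VN VI pr Sol Conv S_ODE S_EN S_COMP S_LIM S_LEQ S_STR
  S_TAIL S_CONC S_NULL
open Pool.Agent.W116.IW.Ibp
open MeasureTheory Set Filter Topology
open Pool.Agent.W779.Morrey (mk' mk'_single integral_div_periodic)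

/-- the imaginary part of `conj z * w` as a bilinear expression -/
theorem im_conj (z w : ℂ) : ((starRingEnd ℂ) z * w).im = z.re * w.im - z.im * w.re := by
  simp [Complex.mul_im]; ring

/-- General form: `a` is a trigonometric polynomial with derivatives `A 0, A 1`. -/
theorem gen (e : ℂ × ℂ → ℝ) (he : ContDiff ℝ 1 e) (F0 : ℂ × ℂ) (z : ℂ) (Λ : Finset Idx)
    (c : Idx → ℂ) (w : Idx → ℂ) :
    ∫ x in Icc (0 : V) 1,
      (fderiv ℝ e (F0 + gd Λ c x) (G Λ c x 0)
          * ((starRingEnd ℂ) (z + tp Λ w c x) * tp Λ (fun k => dk 1 k * w k) c x).im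
        - fderiv ℝ e (F0 + gd Λ c x) (G Λ c x 1)
          * ((starRingEnd ℂ) (z + tp Λ w c x) * tp Λ (fun k => dk 0 k * w k) c x).im
        + 2 * e (F0 + gd Λ c x) * ((starRingEnd ℂ) (tp Λ (fun k => dk 0 k * w k) c x)
            * tp Λ (fun k => dk 1 k * w k) c x).im) = 0 := by
  -- the vector field
  set a : V → ℂ := fun x => z + tp Λ w c x with ha
  set A : Fin 2 → V → ℂ := fun j => tp Λ (fun k => dk j k * w k) c with hA
  set B : Fin 2 → Fin 2 → V → ℂ := fun i j => tp Λ (fun k => dk j k * (dk i k * w k)) c with hB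
  have had : ∀ x, HasFDerivAt a (mk' fun j => A j x) x := fun x =>
    (hasFDerivAt_tp Λ w c x).const_add z
  have hAd : ∀ i x, HasFDerivAt (A i) (mk' fun j => B i j x) x := fun i x =>
    hasFDerivAt_tp Λ (fun k => dk i k * w k) c x
  have hBs : B 0 1 = B 1 0 := by
    simp only [hB]
    refine congrArg (fun w => tp Λ w c) (funext fun k => ?_)
    ring
  have hac : ContDiff ℝ 1 a := contDiff_const.add (contDiff_tp Λ w c 1)
  have hAc : ∀ i, ContDiff ℝ 1 (A i) := fun i => contDiff_tp Λ _ c 1
  set g : Fin 2 → V → ℝ := fun i x => (a x).re * (A i x).im - (a x).im * (A i x).re with hg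
  have hgc : ∀ i, ContDiff ℝ 1 (g i) := by
    intro i
    have r1 : ContDiff ℝ 1 fun x => (a x).re := Complex.reCLM.contDiff.comp hac
    have r2 : ContDiff ℝ 1 fun x => (a x).im := Complex.imCLM.contDiff.comp hac
    have r3 : ContDiff ℝ 1 fun x => (A i x).re := Complex.reCLM.contDiff.comp (hAc i)
    have r4 : ContDiff ℝ 1 fun x => (A i x).im := Complex.imCLM.contDiff.comp (hAc i)
    exact (r1.mul r4).sub (r2.mul r3)
  have hgd : ∀ i j x, fderiv ℝ (g i) x (Pi.single j 1)
      = (A j x).re * (A i x).im + (a x).re * (B i j x).im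
        - ((A j x).im * (A i x).re + (a x).im * (B i j x).re) := by
    intro i j x
    have r1 : HasFDerivAt (fun x => (a x).re) (Complex.reCLM.comp (mk' fun j => A j x)) x :=
      Complex.reCLM.hasFDerivAt.comp x (had x)
    have r2 : HasFDerivAt (fun x => (a x).im) (Complex.imCLM.comp (mk' fun j => A j x)) x :=
      Complex.imCLM.hasFDerivAt.comp x (had x)
    have r3 : HasFDerivAt (fun x => (A i x).re) (Complex.reCLM.comp (mk' fun j => B i j x)) x :=
      Complex.reCLM.hasFDerivAt.comp x (hAd i x)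
    have r4 : HasFDerivAt (fun x => (A i x).im) (Complex.imCLM.comp (mk' fun j => B i j x)) x :=
      Complex.imCLM.hasFDerivAt.comp x (hAd i x)
    have r := (r1.mul r4).sub (r2.mul r3)
    have r' : HasFDerivAt (g i) _ x := r
    rw [r'.fderiv]
    simp only [sub_apply, add_apply, smul_apply, ContinuousLinearMap.comp_apply, mk'_single,
      Complex.reCLM_apply, Complex.imCLM_apply, smul_eq_mul]
    ring
  have heF : ContDiff ℝ 1 fun x => e (F0 + gd Λ c x) := he.comp (contDiff_const.add (contDiff_gd Λ c 1))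
  have heFd : ∀ j x, fderiv ℝ (fun x => e (F0 + gd Λ c x)) x (Pi.single j 1)
      = fderiv ℝ e (F0 + gd Λ c x) (G Λ c x j) := by
    intro j x
    have h1 : HasFDerivAt e (fderiv ℝ e (F0 + gd Λ c x)) (F0 + gd Λ c x) :=
      (he.differentiable (by norm_num) _).hasFDerivAt
    have h2 := h1.comp x ((hasFDerivAt_gd Λ c x).const_add F0)
    have h3 : HasFDerivAt (fun x => e (F0 + gd Λ c x)) _ x := h2
    rw [h3.fderiv, ContinuousLinearMap.comp_apply, mk'_single]
  set f : Fin 2 → V → ℝ := fun i x =>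
    if i = 0 then e (F0 + gd Λ c x) * g 1 x else -(e (F0 + gd Λ c x) * g 0 x) with hf
  have f0 : f 0 = fun x => e (F0 + gd Λ c x) * g 1 x := by
    funext x; simp only [hf, if_true]
  have f1 : f 1 = fun x => -(e (F0 + gd Λ c x) * g 0 x) := by
    have h : (1 : Fin 2) ≠ 0 := by decide
    funext x; simp only [hf, if_neg h]
  have hfc : ∀ i, ContDiff ℝ 1 (f i) := by
    intro i
    fin_cases i
    · change ContDiff ℝ 1 (f 0)
      rw [f0]; exact heF.mul (hgc 1)
    · change ContDiff ℝ 1 (f 1)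
      rw [f1]; exact (heF.mul (hgc 0)).neg
  have key := integral_div_periodic f (fun i => fderiv ℝ (f i))
    (fun i x => ((hfc i).differentiable (by norm_num) x).hasFDerivAt)
    (fun i => (hfc i).continuous_fderiv (by norm_num))
    (fun i x _ => by
      simp only [hf, hg, ha, hA]
      simp only [gd_periodic, tp_periodic])
  rw [← key]
  refine integral_congr_ae (Eventually.of_forall fun x => ?_)
  have dm : ∀ i j x, fderiv ℝ (fun x => e (F0 + gd Λ c x) * g i x) x (Pi.single j 1)
      = e (F0 + gd Λ c x) * fderiv ℝ (g i) x (Pi.single j 1)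
        + fderiv ℝ e (F0 + gd Λ c x) (G Λ c x j) * g i x := by
    intro i j x
    rw [← heFd j x]
    have q1 : HasFDerivAt (fun x => e (F0 + gd Λ c x)) (fderiv ℝ (fun x => e (F0 + gd Λ c x)) x) x :=
      (heF.differentiable (by norm_num) x).hasFDerivAt
    have q2 : HasFDerivAt (g i) (fderiv ℝ (g i) x) x :=
      ((hgc i).differentiable (by norm_num) x).hasFDerivAt
    have q3 := q1.mul q2
    have q4 : HasFDerivAt (fun x => e (F0 + gd Λ c x) * g i x) _ x := q3
    rw [q4.fderiv]
    simp only [add_apply, smul_apply, smul_eq_mul]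
    ring
  have hneg : fderiv ℝ (f 1) x = -fderiv ℝ (fun x => e (F0 + gd Λ c x) * g 0 x) x := by
    rw [f1]; exact fderiv_fun_neg
  change _ = ∑ i, fderiv ℝ (f i) x (Pi.single i 1)
  rw [Fin.sum_univ_two, hneg, f0, neg_apply, dm, dm, hgd, hgd, hBs]
  simp only [im_conj, hg, hA]
  ring

theorem main : S_NULLF := by
  intro e he F0 Λ c
  have h1 : ∀ p q : ℂ, ((starRingEnd ℂ) (p + q) * (Complex.I * (p - q))).im
      = ‖p‖ ^ 2 - ‖q‖ ^ 2 := by
    intro p q
    rw [im_conj, ← Complex.normSq_eq_norm_sq, ← Complex.normSq_eq_norm_sq, Complex.normSq_apply,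
      Complex.normSq_apply]
    simp
    ring
  constructor
  · have h := gen e he F0 F0.1 Λ c ka
    have e0 : ∀ x, tp Λ (fun k => dk 0 k * ka k) c x = pp Λ c x + qq Λ c x := fun x =>
      congrArg Prod.fst (G_zero Λ c x)
    have e1 : ∀ x, tp Λ (fun k => dk 1 k * ka k) c x = Complex.I * (pp Λ c x - qq Λ c x) :=
      fun x => congrArg Prod.fst (G_one Λ c x)
    simp only [e0, e1, G_zero, G_one, h1] at h
    exact h
  · have h := gen e he F0 F0.2 Λ c kb
    have e0 : ∀ x, tp Λ (fun k => dk 0 k * kb k) c x = qq Λ c x + rr Λ c x := fun x =>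
      congrArg Prod.snd (G_zero Λ c x)
    have e1 : ∀ x, tp Λ (fun k => dk 1 k * kb k) c x = Complex.I * (qq Λ c x - rr Λ c x) :=
      fun x => congrArg Prod.snd (G_one Λ c x)
    simp only [e0, e1, G_zero, G_one, h1] at h
    exact h

end Pool.Agent.W400.BQV.Nullf
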