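import Pool.Agent.W400.BQV.StrB

/-! Project BQ (adapted from W582.IW.StrC): the remainder and the energy inequality for the difference. -/

set_option autoImplicit false

namespace Pool.Agent.W400.BQV.Str

open MeasureTheory Set Filter Topology
open Pool.Agent.W360.BQ
open Pool.Agent.W488.IW hiding Dat sm smI Vf VN VI pr Sol Conv S_ODE S_EN S_COMP S_LIM S_LEQ S_STR
  S_TAIL S_CONC S_NULL

variable {H : Type} [NormedAddCommGroup H] [InnerProductSpace ℂ H] [CompleteSpace H]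

/-- the remainder -/
noncomputable def Rm (D : Dat H) (Λ : Finset Idx) (c cl : Idx → ℂ) : H :=
  VN D Λ c - VI D cl - Vf D (sm D Λ ka c) (sm D Λ kb c)
    (sm D Λ (fun k => ka k ^ 2) (fun k => c k - cl k))
    (sm D Λ (fun k => ka k * kb k) (fun k => c k - cl k))
    (sm D Λ (fun k => kb k ^ 2) (fun k => c k - cl k))

lemma Rm_eq (D : Dat H) (Λ : Finset Idx) (c : Idx → ℂ) {cl : Idx → ℂ} (hcl : Sm cl) :
    Rm D Λ c cl = Vf D (sm D Λ ka c) (sm D Λ kb c)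
      (pr D Λ (smI D (fun k => ka k ^ 2) cl) - smI D (fun k => ka k ^ 2) cl)
      (pr D Λ (smI D (fun k => ka k * kb k) cl) - smI D (fun k => ka k * kb k) cl)
      (pr D Λ (smI D (fun k => kb k ^ 2) cl) - smI D (fun k => kb k ^ 2) cl)
      + (Vf D (sm D Λ ka c) (sm D Λ kb c) (smI D (fun k => ka k ^ 2) cl)
        (smI D (fun k => ka k * kb k) cl) (smI D (fun k => kb k ^ 2) cl) - VI D cl) := by
  rw [pr_smI D hcl (fun k => (kaa k).le), pr_smI D hcl (fun k => (kab k).le),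
    pr_smI D hcl (fun k => (kbb k).le), ← Vf_sub, Rm, VN, ← sm_sub, ← sm_sub, ← sm_sub, ← Vf_sub]
  abel

lemma VI_norm (D : Dat H) {cl : Idx → ℂ} (hcl : Sm cl) :
    ‖VI D cl‖ ≤ (D.M + 2) * Real.sqrt (dd cl) := by
  unfold VI
  refine (Vf_norm _ _ _ _ _ _).trans ?_
  have h1 := norm_smI D hcl (w := fun k => ka k ^ 2) (fun k => (kaa k).le)
  have h2 := norm_smI D hcl (w := fun k => ka k * kb k) (fun k => (kab k).le)
  have h3 := norm_smI D hcl (w := fun k => kb k ^ 2) (fun k => (kbb k).le)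
  nlinarith [M_nonneg D]

lemma Rm_norm (D : Dat H) (Λ : Finset Idx) (c : Idx → ℂ) {cl : Idx → ℂ} (hcl : Sm cl) :
    ‖Rm D Λ c cl‖ ≤ 4 * (D.M + 2) * Real.sqrt (dd cl) := by
  rw [Rm_eq D Λ c hcl]
  refine (norm_add_le _ _).trans ?_
  have h1 := norm_smI D hcl (w := fun k => ka k ^ 2) (fun k => (kaa k).le)
  have h2 := norm_smI D hcl (w := fun k => ka k * kb k) (fun k => (kab k).le)
  have h3 := norm_smI D hcl (w := fun k => kb k ^ 2) (fun k => (kbb k).le)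
  have h4 := norm_pr_sub D Λ (smI D (fun k => ka k ^ 2) cl)
  have h5 := norm_pr_sub D Λ (smI D (fun k => ka k * kb k) cl)
  have h6 := norm_pr_sub D Λ (smI D (fun k => kb k ^ 2) cl)
  have h7 := VI_norm D hcl
  have h8 := Vf_norm D (sm D Λ ka c) (sm D Λ kb c)
      (pr D Λ (smI D (fun k => ka k ^ 2) cl) - smI D (fun k => ka k ^ 2) cl)
      (pr D Λ (smI D (fun k => ka k * kb k) cl) - smI D (fun k => ka k * kb k) cl)
      (pr D Λ (smI D (fun k => kb k ^ 2) cl) - smI D (fun k => kb k ^ 2) cl)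
  have h9 := Vf_norm D (sm D Λ ka c) (sm D Λ kb c) (smI D (fun k => ka k ^ 2) cl)
        (smI D (fun k => ka k * kb k) cl) (smI D (fun k => kb k ^ 2) cl)
  have h10 := norm_sub_le (Vf D (sm D Λ ka c) (sm D Λ kb c) (smI D (fun k => ka k ^ 2) cl)
        (smI D (fun k => ka k * kb k) cl) (smI D (fun k => kb k ^ 2) cl)) (VI D cl)
  have hn : 0 ≤ D.M := M_nonneg D
  have h11 := mul_le_mul_of_nonneg_left h2 hn
  have h12 := mul_le_mul_of_nonneg_left h5 hn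
  linarith

lemma Rm_tendsto (D : Dat H) {Nn : ℕ → ℕ} (hN : StrictMono Nn) (c : ℕ → Idx → ℂ) {cl : Idx → ℂ}
    (hcl : Sm cl)
    (ha : Tendsto (fun j => sm D (box (Nn j)) ka (c j)) atTop (𝓝 (smI D ka cl)))
    (hb : Tendsto (fun j => sm D (box (Nn j)) kb (c j)) atTop (𝓝 (smI D kb cl))) :
    Tendsto (fun j => Rm D (box (Nn j)) (c j) cl) atTop (𝓝 0) := by
  have e : (fun j => Rm D (box (Nn j)) (c j) cl) = fun j => _ :=
    funext fun j => Rm_eq D (box (Nn j)) (c j) hcl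
  rw [e]
  have hcont := Vf_cont D
  have hp : ∀ v : H, Tendsto (fun j => pr D (box (Nn j)) v - v) atTop (𝓝 0) := by
    intro v
    have := (tendsto_pr D hN v).sub_const v
    simpa using this
  have t1 := (hcont.tendsto ((smI D ka cl, smI D kb cl), ((0 : H), (0 : H), (0 : H)))).comp
    ((ha.prodMk_nhds hb).prodMk_nhds ((hp (smI D (fun k => ka k ^ 2) cl)).prodMk_nhds
      ((hp (smI D (fun k => ka k * kb k) cl)).prodMk_nhds (hp (smI D (fun k => kb k ^ 2) cl)))))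
  have t2 := (hcont.tendsto ((smI D ka cl, smI D kb cl), (smI D (fun k => ka k ^ 2) cl,
    smI D (fun k => ka k * kb k) cl, smI D (fun k => kb k ^ 2) cl))).comp
    ((ha.prodMk_nhds hb).prodMk_nhds (tendsto_const_nhds (x := (smI D (fun k => ka k ^ 2) cl,
    smI D (fun k => ka k * kb k) cl, smI D (fun k => kb k ^ 2) cl))))
  have t3 := t1.add (t2.sub_const (VI D cl))
  have z1 : Vf D (smI D ka cl) (smI D kb cl) 0 0 0 = 0 := by
    unfold Vf; simp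
  have z2 : Vf D (smI D ka cl) (smI D kb cl) (smI D (fun k => ka k ^ 2) cl)
    (smI D (fun k => ka k * kb k) cl) (smI D (fun k => kb k ^ 2) cl) = VI D cl := rfl
  simp only [z1, z2, sub_self, add_zero] at t3
  exact t3

/-- the pointwise inequality -/
lemma key_pt (D : Dat H) (Λ : Finset Idx) (c cl : Idx → ℂ) :
    ‖VN D Λ c - VI D cl‖ ^ 2 ≤ 4 * (D.M + 2) ^ 2 / (D.n - 2)
        * (inner ℂ (sm D Λ (fun k => ka k * kb k) (fun k => c k - cl k))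
            (VN D Λ c - VI D cl)).re
      + (2 + 2 * (D.M + 2) ^ 2 / (D.n - 2) ^ 2) * ‖Rm D Λ c cl‖ ^ 2 := by
  obtain ⟨x, hx⟩ : ∃ x, x = sm D Λ (fun k => ka k * kb k) (fun k => c k - cl k) := ⟨_, rfl⟩
  obtain ⟨y, hy⟩ : ∃ y, y = sm D Λ (fun k => ka k ^ 2) (fun k => c k - cl k) := ⟨_, rfl⟩
  obtain ⟨z, hz⟩ : ∃ z, z = sm D Λ (fun k => kb k ^ 2) (fun k => c k - cl k) := ⟨_, rfl⟩
  have hyx : ‖y‖ = ‖x‖ := by
    rw [hx, hy, norm_sm D Λ _ kaa, norm_sm D Λ _ kab]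
  have hzx : ‖z‖ = ‖x‖ := by
    rw [hx, hz, norm_sm D Λ _ kbb, norm_sm D Λ _ kab]
  obtain ⟨u, hu⟩ : ∃ u, u = VN D Λ c - VI D cl := ⟨_, rfl⟩
  obtain ⟨W, hW⟩ : ∃ W, W = Vf D (sm D Λ ka c) (sm D Λ kb c) y x z := ⟨_, rfl⟩
  have hR : Rm D Λ c cl = u - W := by
    rw [hu, hW, hx, hy, hz, Rm]
  rw [← hu, ← hx, hR]
  have hn := D.hn
  have hM := M_nonneg D
  obtain ⟨δ, hδ⟩ : ∃ δ, δ = D.n - 2 := ⟨_, rfl⟩
  have hδ0 : 0 < δ := by linarith
  have h1 : δ * ‖x‖ ^ 2 ≤ (inner ℂ x W).re := by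
    rw [hδ, hW]
    exact coer D _ _ _ _ _ hyx hzx
  have h2 : (inner ℂ x W).re = (inner ℂ x u).re - (inner ℂ x (u - W)).re := by
    rw [inner_sub_right, Complex.sub_re]
    ring
  have h3 : -(‖x‖ * ‖u - W‖) ≤ (inner ℂ x (u - W)).re := by
    have h4 := Complex.abs_re_le_norm (inner ℂ x (u - W))
    have h5 := norm_inner_le_norm (𝕜 := ℂ) x (u - W)
    have h6 := neg_abs_le (inner ℂ x (u - W)).re
    linarith
  have h4 : ‖W‖ ≤ (D.M + 2) * ‖x‖ := by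
    rw [hW]
    refine (Vf_norm _ _ _ _ _ _).trans ?_
    rw [hyx, hzx]
    linarith
  have h5 : ‖u‖ ≤ ‖u - W‖ + (D.M + 2) * ‖x‖ := by
    have : u = (u - W) + W := by abel
    calc ‖u‖ = ‖(u - W) + W‖ := by rw [← this]
      _ ≤ ‖u - W‖ + ‖W‖ := norm_add_le _ _
      _ ≤ _ := by linarith
  have h6 : ‖u‖ ^ 2 ≤ 2 * ‖u - W‖ ^ 2 + 2 * (D.M + 2) ^ 2 * ‖x‖ ^ 2 := by
    have h7 : ‖u‖ ^ 2 ≤ (‖u - W‖ + (D.M + 2) * ‖x‖) ^ 2 :=
      pow_le_pow_left₀ (norm_nonneg _) h5 2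
    nlinarith [sq_nonneg (‖u - W‖ - (D.M + 2) * ‖x‖)]
  have h7 : ‖x‖ * ‖u - W‖ ≤ δ / 2 * ‖x‖ ^ 2 + ‖u - W‖ ^ 2 / (2 * δ) := by
    rw [← sub_nonneg]
    have : δ / 2 * ‖x‖ ^ 2 + ‖u - W‖ ^ 2 / (2 * δ) - ‖x‖ * ‖u - W‖
        = (δ * ‖x‖ - ‖u - W‖) ^ 2 / (2 * δ) := by
      field_simp
      ring
    rw [this]
    positivity
  have h8 : ‖x‖ ^ 2 ≤ 2 / δ * (inner ℂ x u).re + ‖u - W‖ ^ 2 / δ ^ 2 := by
    have h9 : δ / 2 * ‖x‖ ^ 2 ≤ (inner ℂ x u).re + ‖u - W‖ ^ 2 / (2 * δ) := by linarith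
    have h10 := mul_le_mul_of_nonneg_left h9 (by positivity : (0:ℝ) ≤ 2 / δ)
    have h11 : 2 / δ * (δ / 2 * ‖x‖ ^ 2) = ‖x‖ ^ 2 := by field_simp
    have h12 : 2 / δ * ((inner ℂ x u).re + ‖u - W‖ ^ 2 / (2 * δ))
        = 2 / δ * (inner ℂ x u).re + ‖u - W‖ ^ 2 / δ ^ 2 := by field_simp
    linarith
  have h9 := mul_le_mul_of_nonneg_left h8 (by positivity : (0:ℝ) ≤ 2 * (D.M + 2) ^ 2)
  rw [← hδ]
  have h10 : 2 * (D.M + 2) ^ 2 * (2 / δ * (inner ℂ x u).re + ‖u - W‖ ^ 2 / δ ^ 2)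
      = 4 * (D.M + 2) ^ 2 / δ * (inner ℂ x u).re
        + 2 * (D.M + 2) ^ 2 / δ ^ 2 * ‖u - W‖ ^ 2 := by
    ring
  linarith

end Pool.Agent.W400.BQV.Str
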